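import Mathlib
import Pool.Agent.Q237.EP.D7

set_option autoImplicit false

/-!
# MP_493793_nt: the exponent pair conjecture fails in the class of the problem

The class of the problem consists of all smooth `f` on `[N, 2N]` all of whose derivatives are comparable to those
of a power, `c j F N^(-j) ≤ |f^(j)| ≤ C j F N^(-j)` for all `j ≥ 0`, with `F ≥ N`. The function `f x = 2 (x/3)^(3/2)`
is of this kind (`F = N^(3/2)`), and its Legendre transform is `-ν^3`, an integer at all stationary points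
`x = 3 ν^2`. So all the stationary phases have the same argument and the sum of `e(f n)` over suitable intervals
`[N, N']`, `N' ≤ 2N`, has absolute value at least a constant times `N^(3/4) = F^(1/2)`. Hence every exponent pair
`(p, q)` of the class satisfies `p + 2 q ≥ 1/2`, with equality for the van der Corput pair `(1/2, 0)`.
-/

namespace Pool.Agent.Results.MP_493793_nt.NecessaryCondition

/-- `f` is admissible at scale `N` with parameter `F` and constants `c`, `C`. -/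
def Admissible (c C : ℕ → ℝ) (N F : ℝ) (f : ℝ → ℝ) : Prop :=
  N ≤ F ∧ ContDiffOn ℝ (⊤ : ℕ∞) f (Set.Icc N (2 * N)) ∧
    ∀ j : ℕ, ∀ x ∈ Set.Icc N (2 * N),
      c j * F / N ^ j ≤ |iteratedDerivWithin j f (Set.Icc N (2 * N)) x| ∧
      |iteratedDerivWithin j f (Set.Icc N (2 * N)) x| ≤ C j * F / N ^ j

/-- `(p, q)` is an exponent pair: for all positive sequences `c`, `C` and all `ε > 0` there is `K` such that the sum
of `exp(2πi f(n))` over the integers `n` in `[N, N']` is at most `K F^p N^(q - p + 1/2) F^ε` in absolute value, for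
all `2 ≤ N ≤ N' ≤ 2N` and all admissible `f`. -/
def IsExponentPair (p q : ℝ) : Prop :=
  ∀ c C : ℕ → ℝ, (∀ j, 0 < c j) → (∀ j, 0 < C j) → ∀ ε : ℝ, 0 < ε → ∃ K : ℝ, ∀ (N N' F : ℝ) (f : ℝ → ℝ),
    2 ≤ N → N ≤ N' → N' ≤ 2 * N → Admissible c C N F f →
      ‖∑ n ∈ Finset.Icc ⌈N⌉₊ ⌊N'⌋₊, Complex.exp (2 * (Real.pi : ℂ) * Complex.I * ((f n : ℝ) : ℂ))‖ ≤
        K * F ^ p * N ^ (q - p + 1 / 2) * F ^ ε

/-- Every exponent pair `(p, q)` with `p, q ≥ 0` satisfies `p + 2 q ≥ 1/2`; in particular `(0, 0)` is not an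
exponent pair. -/
theorem result : (∀ p q : ℝ, 0 ≤ p → 0 ≤ q → IsExponentPair p q → 1 / 2 ≤ p + 2 * q) ∧ ¬ IsExponentPair 0 0 := by
  have key : ∀ p q : ℝ, 0 ≤ p → 0 ≤ q → IsExponentPair p q → 1 / 2 ≤ p + 2 * q := by
    intro p q hp hq h
    by_contra hlt
    push Not at hlt
    obtain ⟨K, hK⟩ := h Q237.EP.cc Q237.EP.CC Q237.EP.cc_pos Q237.EP.CC_pos ((1 / 4 - p / 2 - q) / 3) (by linarith)
    obtain ⟨a, b, ha, hab, hb, hlt2⟩ := Q237.EP.main_pq K p q hp hq hlt
    have ha0 : (0 : ℝ) < a := by exact_mod_cast (by omega : 0 < a)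
    have ha1 : (1 : ℝ) ≤ a := by exact_mod_cast (by omega : 1 ≤ a)
    have h1 := hK (a : ℝ) (b : ℝ) ((a : ℝ) ^ (3 / 2 : ℝ)) Q237.EP.ff (by exact_mod_cast ha) (by exact_mod_cast hab)
      (by exact_mod_cast hb) ⟨(by
        calc (a : ℝ) = (a : ℝ) ^ (1 : ℝ) := (Real.rpow_one _).symm
          _ ≤ (a : ℝ) ^ (3 / 2 : ℝ) := Real.rpow_le_rpow_of_exponent_le ha1 (by norm_num)),
      Q237.EP.contDiffOn_ff ha0, fun j x hx => Q237.EP.bounds_ff ha0 hx j⟩
    rw [Nat.ceil_natCast, Nat.floor_natCast] at h1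
    have h2 : ∑ n ∈ Finset.Icc a b, Complex.exp (2 * (Real.pi : ℂ) * Complex.I * ((Q237.EP.ff n : ℝ) : ℂ)) =
        ∑ n ∈ Finset.Icc a b, H469R2.NK.e (Q237.EP.ff n) := by
      refine Finset.sum_congr rfl fun n _ => ?_
      unfold H469R2.NK.e
      congr 1
      push_cast
      ring
    rw [h2] at h1
    exact absurd h1 (not_le.mpr hlt2)
  refine ⟨key, fun h => ?_⟩
  have := key 0 0 le_rfl le_rfl h
  norm_num at this

end Pool.Agent.Results.MP_493793_nt.NecessaryCondition
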